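import Mathlib

/-!
# MP_fb91b8: cyclic sorting time by adjacent-value swaps

For `n = 18` there is an `18`-cycle at distance at least `83` from `c_18` in `Γ_18`, while
`inv(π₀) = 82`.
-/

namespace Pool.Agent.Results.MP_fb91b8_co.Eighteen

open Equiv Equiv.Perm

/-! We write `n = N + 1`, and the points `1, …, n` as the elements `0, …, N` of `Fin (N + 1)`. -/

/-- The `n`-cycles (permutations acting transitively on all `n = N + 1` points). -/
abbrev NCycle (N : ℕ) : Type := {γ : Perm (Fin (N + 1)) // γ.IsCycleOn Set.univ}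

/-- The adjacent transposition `s_i = (i, i+1)`. -/
def s {N : ℕ} (i : Fin N) : Perm (Fin (N + 1)) := swap i.castSucc i.succ

/-- The graph `Γ_n`: distinct `n`-cycles `γ, γ'` are adjacent iff `γ' = s_i γ s_i` for some `i`. -/
def Gam (N : ℕ) : SimpleGraph (NCycle N) where
  Adj γ γ' := γ ≠ γ' ∧ ∃ i : Fin N, γ'.1 = s i * γ.1 * s i
  symm := ⟨by
    rintro γ γ' ⟨h, i, hi⟩
    refine ⟨h.symm, i, ?_⟩
    rw [hi]
    unfold s
    rw [mul_assoc, mul_assoc, mul_assoc, swap_mul_self, mul_one, ← mul_assoc, swap_mul_self,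
      one_mul]⟩
  loopless := ⟨fun γ h => h.1 rfl⟩

/-- `c_n = (1, 2, …, n)`, i.e. `x ↦ x + 1`. -/
def cyc (N : ℕ) : NCycle N := ⟨finRotate (N + 1), by
  rcases N with _ | N
  · exact ⟨Set.bijOn_univ.2 (finRotate 1).bijective, fun x _ y _ => by
      rw [Subsingleton.elim (α := Fin 1) x y]⟩
  · have h := (isCycle_finRotate (n := N)).isCycleOn
    have h2 : {x | finRotate (N + 2) x ≠ x} = Set.univ := by
      ext x
      simp
    rwa [h2] at h⟩

/-- `Sort_n` for `n = N + 1`. -/
noncomputable def sortTime (N : ℕ) : ℕ := sSup (Set.range fun γ => (Gam N).dist (cyc N) γ)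

/-- The number of inversions of a sequence (list). -/
def inv : List ℕ → ℕ
  | [] => 0
  | a :: l => (l.filter fun b => b < a).length + inv l

/-- Admissibility: `∑_{j ≤ k} π(j) ≤ k (n+1) / 2` for every `1 ≤ k ≤ n`, `n` the length. -/
def admissible (l : List ℕ) : Bool :=
  (List.range l.length).all fun k => 2 * (l.take (k + 1)).sum ≤ (k + 1) * (l.length + 1)

/-- With `m = ⌊n/2⌋`: the arrangement of `1, …, n` in which the values `n-m, …, 1` are in
decreasing order and, for `t = 1, …, m`, the value `n + 1 - t` comes immediately after the first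
`k_t` of them (larger values first), where `k_t` is the `t`-th entry of `ks`, and `k_t = n - m`
if `ks` has fewer than `t` entries. -/
def arrange (n : ℕ) (ks : List ℕ) : List ℕ :=
  (List.range (n - n / 2 + 1)).flatMap fun j =>
    (((List.range (n / 2)).filter fun t => ks.getD t (n - n / 2) = j).map fun t => n - t) ++
      (if j < n - n / 2 then [n - n / 2 - j] else [])

/-- `k_1, …, k_t`: each `k_t` is the least value `≥ k_{t-1}` such that the arrangement (with the
values `n+1-t', t' > t`, still at the end) is admissible. -/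
def kList (n : ℕ) : ℕ → List ℕ
  | 0 => []
  | t + 1 => kList n t ++ [((List.range (n - n / 2 + 1)).find? fun k =>
      (kList n t).getLastD 0 ≤ k && admissible (arrange n (kList n t ++ [k]))).getD (n - n / 2)]

/-- The permutation `π₀ ∈ S_n` in one-line notation. -/
def piZero (n : ℕ) : List ℕ := arrange n (kList n (n / 2))

/-- the example of the problem -/
theorem piZero_12 : piZero 12 = [6, 5, 4, 3, 12, 2, 11, 1, 10, 9, 8, 7] := by decide +kernel

theorem piZero_18 :
    piZero 18 = [9, 8, 7, 6, 5, 18, 4, 17, 3, 16, 2, 15, 1, 14, 13, 12, 11, 10] := by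
  decide +kernel

theorem inv_piZero_18 : inv (piZero 18) = 82 := by
  rw [piZero_18]; decide

/-! ### The lower bound -/

/-- number of inversions of a function -/
def invF {n : ℕ} (f : Fin n → Fin n) : ℕ :=
  (Finset.univ.filter fun p : Fin n × Fin n => p.1 < p.2 ∧ f p.2 < f p.1).card

theorem s_lt {N : ℕ} (i : Fin N) {x y : Fin (N + 1)} (h : x < y)
    (h2 : ¬ (x = i.castSucc ∧ y = i.succ)) : s i x < s i y := by
  unfold s
  have hx := swap_apply_def i.castSucc i.succ x
  have hy := swap_apply_def i.castSucc i.succ y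
  rw [hx, hy]
  rw [Fin.lt_def] at h
  rw [Fin.ext_iff, Fin.ext_iff] at h2
  simp only [Fin.val_castSucc, Fin.val_succ] at h2
  split_ifs with h3 h4 h5 h6 h7 h8 <;>
  · simp only [Fin.ext_iff, Fin.lt_def, Fin.val_castSucc, Fin.val_succ] at *
    omega

theorem inv_mul {N : ℕ} (i : Fin N) (σ : Perm (Fin (N + 1))) :
    invF (s i * σ) ≤ invF σ + 1 := by
  unfold invF
  have hsub : (Finset.univ.filter fun p : Fin (N + 1) × Fin (N + 1) =>
      p.1 < p.2 ∧ (s i * σ) p.2 < (s i * σ) p.1) ⊆
      insert (σ.symm i.castSucc, σ.symm i.succ)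
        (Finset.univ.filter fun p : Fin (N + 1) × Fin (N + 1) => p.1 < p.2 ∧ σ p.2 < σ p.1) := by
    rintro ⟨x, y⟩ h
    rw [Finset.mem_filter] at h
    obtain ⟨_, hxy, h⟩ := h
    simp only at hxy h
    rw [Finset.mem_insert, Finset.mem_filter]
    by_cases hc : σ y < σ x
    · exact Or.inr ⟨Finset.mem_univ _, hxy, hc⟩
    · left
      have hne : σ x ≠ σ y := fun e => hxy.ne (σ.injective e)
      have hlt : σ x < σ y := lt_of_le_of_ne (not_lt.1 hc) hne
      by_contra hcon
      have := s_lt i hlt (by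
        rintro ⟨e1, e2⟩
        apply hcon
        rw [← e1, ← e2, symm_apply_apply, symm_apply_apply])
      rw [Perm.mul_apply, Perm.mul_apply] at h
      exact absurd h (not_lt.2 this.le)
  exact (Finset.card_le_card hsub).trans (Finset.card_insert_le _ _)

theorem invF_one (N : ℕ) : invF ((1 : Perm (Fin (N + 1))) : Fin (N + 1) → Fin (N + 1)) = 0 := by
  unfold invF
  rw [Finset.card_eq_zero, Finset.filter_eq_empty_iff]
  rintro ⟨x, y⟩ _ ⟨h1, h2⟩
  simp only [Perm.one_apply] at h2
  exact absurd h1 (not_lt.2 h2.le)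

theorem s_inv {N : ℕ} (i : Fin N) : (s i)⁻¹ = s i := by
  unfold s; exact swap_inv _ _

theorem walk_bound {N : ℕ} {γ δ : NCycle N} (p : (Gam N).Walk γ δ) (σ : Perm (Fin (N + 1)))
    (hσ : γ.1 = σ * (cyc N).1 * σ⁻¹) :
    ∃ τ : Perm (Fin (N + 1)), δ.1 = τ * (cyc N).1 * τ⁻¹ ∧ invF τ ≤ invF σ + p.length := by
  induction p generalizing σ with
  | nil => exact ⟨σ, hσ, by simp⟩
  | cons h p ih =>
      obtain ⟨i, hi⟩ := h.2
      obtain ⟨τ, h1, h2⟩ := ih (s i * σ) (by
        rw [hi, hσ, mul_inv_rev, s_inv]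
        simp only [mul_assoc])
      refine ⟨τ, h1, ?_⟩
      have := inv_mul i σ
      rw [SimpleGraph.Walk.length_cons]
      omega

theorem conj_eq {N : ℕ} (π τ : Perm (Fin (N + 1)))
    (h : π * (cyc N).1 * π⁻¹ = τ * (cyc N).1 * τ⁻¹) :
    ∃ a, ∀ x, τ x = π (a + x) := by
  have h1 : ∀ x, π.symm (τ (x + 1)) = π.symm (τ x) + 1 := by
    intro x
    have h2 : (π * (cyc N).1 * π⁻¹) (τ x) = (τ * (cyc N).1 * τ⁻¹) (τ x) := by rw [h]
    have e1 : (π * (cyc N).1 * π⁻¹) (τ x) = π (finRotate (N + 1) (π.symm (τ x))) := rfl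
    have e2 : (τ * (cyc N).1 * τ⁻¹) (τ x) = τ (finRotate (N + 1) (τ.symm (τ x))) := rfl
    rw [e1, e2, finRotate_apply, finRotate_apply, symm_apply_apply] at h2
    rw [← h2, symm_apply_apply]
  have h3 : ∀ x : Fin (N + 1), π.symm (τ x) = π.symm (τ 0) + x := by
    intro x
    induction x using Fin.induction with
    | zero => simp
    | succ i ih =>
        rw [← Fin.coeSucc_eq_succ, h1, ih, add_assoc]
  refine ⟨π.symm (τ 0), fun x => ?_⟩
  rw [← h3 x, apply_symm_apply]

theorem conj_mem {N : ℕ} (σ : Perm (Fin (N + 1))) (γ : NCycle N) :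
    (σ * γ.1 * σ⁻¹).IsCycleOn Set.univ := by
  have := γ.2.conj (g := σ)
  simpa using this

/-- conjugate of `c_n` -/
def conj {N : ℕ} (σ : Perm (Fin (N + 1))) : NCycle N := ⟨σ * (cyc N).1 * σ⁻¹, conj_mem σ _⟩

theorem reach {N : ℕ} (σ : Perm (Fin (N + 1))) : (Gam N).Reachable (cyc N) (conj σ) := by
  have hmem : σ ∈ Submonoid.closure (Set.range fun i : Fin N => swap i.castSucc i.succ) := by
    rw [mclosure_swap_castSucc_succ]; trivial
  induction hmem using Submonoid.closure_induction_left with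
  | one =>
      have : conj (1 : Perm (Fin (N + 1))) = cyc N := by
        apply Subtype.ext; simp [conj]
      rw [this]
  | mul_left x hx y _ ih =>
      obtain ⟨i, rfl⟩ := hx
      refine ih.trans ?_
      by_cases he : conj y = conj (swap i.castSucc i.succ * y)
      · rw [he]
      · refine SimpleGraph.Adj.reachable ⟨he, i, ?_⟩
        show swap i.castSucc i.succ * y * (cyc N).1 * (swap i.castSucc i.succ * y)⁻¹ =
          s i * (y * (cyc N).1 * y⁻¹) * s i
        rw [mul_inv_rev, swap_inv]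
        simp only [s, mul_assoc]

/-- the extremal permutation `[5,4,17,3,16,2,15,14,1,13,12,11,10,9,8,7,6,18]` (shifted by 1) -/
def piF : Fin 18 → Fin 18 := ![4, 3, 16, 2, 15, 1, 14, 13, 0, 12, 11, 10, 9, 8, 7, 6, 5, 17]

theorem piF_inj : Function.Injective piF := by decide

/-- the permutation -/
noncomputable def piP : Perm (Fin 18) := Equiv.ofBijective piF (Finite.injective_iff_bijective.1 piF_inj)

theorem inv_rot : ∀ a : Fin 18, 83 ≤ invF (fun x => piF (a + x)) := by
  unfold invF
  decide +kernel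

theorem dist_ge : 83 ≤ (Gam 17).dist (cyc 17) (conj piP) := by
  obtain ⟨p, hp⟩ := (reach (N := 17) piP).exists_walk_length_eq_dist
  obtain ⟨τ, h1, h2⟩ := walk_bound p 1 (by simp)
  obtain ⟨a, ha⟩ := conj_eq piP τ h1
  have h3 : (τ : Fin 18 → Fin 18) = fun x => piF (a + x) := by
    funext x; exact ha x
  have h4 := inv_rot a
  rw [← h3] at h4
  rw [invF_one] at h2
  omega

/-- **Q1 is false**: for `n = 18`, `inv(π₀) = 82`, but some `18`-cycle is at distance at least
`83` from `c_18` in `Γ_18`; in particular `Sort_18 ≠ inv(π₀)`. -/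
theorem result : inv (piZero 18) = 82 ∧ (∃ γ : NCycle 17, 83 ≤ (Gam 17).dist (cyc 17) γ) ∧
    inv (piZero 18) < sortTime 17 ∧ ¬ ∀ N : ℕ, sortTime N = inv (piZero (N + 1)) := by
  have h1 : 83 ≤ sortTime 17 := by
    have : Finite (NCycle 17) := Subtype.finite
    exact dist_ge.trans (le_csSup (Set.finite_range _).bddAbove ⟨_, rfl⟩)
  refine ⟨inv_piZero_18, ⟨_, dist_ge⟩, ?_, fun h => ?_⟩
  · rw [inv_piZero_18]; omega
  · have := h 17
    rw [show 17 + 1 = 18 from rfl, inv_piZero_18] at this
    omega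

end Pool.Agent.Results.MP_fb91b8_co.Eighteen
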